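import Mathlib

set_option autoImplicit false

open Set Metric Filter Topology

namespace Pool.Agent.Kept.MP_124474_gt.SharpThreshold

/-- The circle of length `2π` with its geodesic (arc-length) metric. -/
abbrev Circ : Type := AddCircle (2 * Real.pi)

/-- The Hausdorff distance from `X` to the whole circle inside the circle:
`sup_p inf_{x ∈ X} d(p, x)`. -/
noncomputable def dH (X : Set Circ) : ℝ := ⨆ p : Circ, infDist p X

/-- The Gromov–Hausdorff distance from `X` (with the restricted metric) to the circle: the infimum,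
over all metric spaces `Z` and isometric embeddings `φ : X → Z`, `ψ : Circ → Z`, of the Hausdorff
distance in `Z` between the two images. -/
noncomputable def dGH (X : Set Circ) : ℝ :=
  sInf {r : ℝ | ∃ (Z : Type) (_ : MetricSpace Z) (φ : X → Z) (ψ : Circ → Z),
    Isometry φ ∧ Isometry ψ ∧ r = hausdorffDist (range φ) (range ψ)}

/-- The statement asked about in Q1: the threshold `π/6` cannot be replaced by a larger one. -/
def Q1 : Prop :=
  ∀ ε : ℝ, 0 < ε → ∃ X : Set Circ, X.Nonempty ∧ dH X < Real.pi / 6 + ε ∧ dGH X < dH X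

instance fact2pi : Fact (0 < 2 * Real.pi) := ⟨by positivity⟩

theorem two_pi_ne : (2 * Real.pi) ≠ 0 := by positivity

theorem norm_le_pi (x : Circ) : ‖x‖ ≤ Real.pi := by
  have := AddCircle.norm_le_half_period (2 * Real.pi) (x := x) two_pi_ne
  rw [abs_of_pos (by positivity)] at this
  linarith

theorem norm_eq_abs {a : ℝ} (h : |a| ≤ Real.pi) : ‖(a : Circ)‖ = |a| := by
  rw [AddCircle.norm_coe_eq_abs_iff (p := 2 * Real.pi) two_pi_ne]
  rw [abs_of_pos (by positivity : (0:ℝ) < 2 * Real.pi)]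
  linarith

theorem norm_le_abs (a : ℝ) : ‖(a : Circ)‖ ≤ |a| := by
  by_cases h : |a| ≤ Real.pi
  · exact (norm_eq_abs h).le
  · exact (norm_le_pi _).trans (not_le.mp h).le

theorem coe_sub_2pi (a : ℝ) : ((a - 2 * Real.pi : ℝ) : Circ) = (a : Circ) := by
  rw [AddCircle.coe_sub, AddCircle.coe_period, sub_zero]

theorem coe_add_2pi (a : ℝ) : ((a + 2 * Real.pi : ℝ) : Circ) = (a : Circ) := by
  rw [AddCircle.coe_add, AddCircle.coe_period, add_zero]

/-- the norm of a point with representative in `[-2π, 2π]`. -/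
theorem norm_eq_min {a : ℝ} (h : |a| ≤ 2 * Real.pi) :
    ‖(a : Circ)‖ = min |a| (2 * Real.pi - |a|) := by
  by_cases h1 : |a| ≤ Real.pi
  · rw [norm_eq_abs h1, min_eq_left (by linarith)]
  · push Not at h1
    rw [min_eq_right (by linarith)]
    rcases le_or_gt 0 a with h0 | h0
    · rw [abs_of_nonneg h0] at h h1 ⊢
      rw [← coe_sub_2pi, norm_eq_abs, abs_of_nonpos (by linarith)]
      · ring
      · rw [abs_of_nonpos (by linarith)]; linarith
    · rw [abs_of_neg h0] at h h1 ⊢
      rw [← coe_add_2pi, norm_eq_abs, abs_of_nonneg (by linarith)]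
      · ring
      · rw [abs_of_nonneg (by linarith)]; linarith

theorem infDist_le_pi (p : Circ) {X : Set Circ} (hX : X.Nonempty) : infDist p X ≤ Real.pi := by
  obtain ⟨x, hx⟩ := hX
  calc infDist p X ≤ dist p x := infDist_le_dist_of_mem hx
    _ = ‖p - x‖ := dist_eq_norm _ _
    _ ≤ _ := norm_le_pi _

theorem bdd {X : Set Circ} (hX : X.Nonempty) : BddAbove (range fun p : Circ => infDist p X) :=
  ⟨Real.pi, by rintro _ ⟨p, rfl⟩; exact infDist_le_pi p hX⟩

theorem infDist_le_dH {X : Set Circ} (hX : X.Nonempty) (p : Circ) : infDist p X ≤ dH X :=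
  le_ciSup (bdd hX) p

theorem dH_nonneg {X : Set Circ} (hX : X.Nonempty) : 0 ≤ dH X :=
  infDist_nonneg.trans (infDist_le_dH hX 0)

theorem dGH_bddBelow (X : Set Circ) :
    BddBelow {r : ℝ | ∃ (Z : Type) (_ : MetricSpace Z) (φ : X → Z) (ψ : Circ → Z),
    Isometry φ ∧ Isometry ψ ∧ r = hausdorffDist (range φ) (range ψ)} :=
  ⟨0, by rintro _ ⟨Z, _, φ, ψ, _, _, rfl⟩; exact hausdorffDist_nonneg⟩

/-- `d_GH ≤ d_H` always. -/
theorem dGH_le_dH {X : Set Circ} (hX : X.Nonempty) : dGH X ≤ dH X := by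
  have hm : hausdorffDist (range (Subtype.val : X → Circ)) (range (id : Circ → Circ)) ∈
      {r : ℝ | ∃ (Z : Type) (_ : MetricSpace Z) (φ : X → Z) (ψ : Circ → Z),
    Isometry φ ∧ Isometry ψ ∧ r = hausdorffDist (range φ) (range ψ)} :=
    ⟨Circ, inferInstance, Subtype.val, id, isometry_subtype_coe, isometry_id, rfl⟩
  refine (csInf_le (dGH_bddBelow X) hm).trans ?_
  apply hausdorffDist_le_of_infDist (dH_nonneg hX)
  · intro x _
    rw [infDist_zero_of_mem]
    · exact dH_nonneg hX
    · simp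
  · intro x _
    rw [Subtype.range_coe]
    exact infDist_le_dH hX x

theorem bounded_circ (A : Set Circ) : Bornology.IsBounded A := by
  rw [Metric.isBounded_iff]
  exact ⟨Real.pi, fun x _ y _ => by rw [dist_eq_norm]; exact norm_le_pi _⟩

/-- The main lower bound. -/
theorem key {X : Set Circ} (hX : X.Nonempty) {Z : Type} [MetricSpace Z] {φ : X → Z} {ψ : Circ → Z}
    (hφ : Isometry φ) (hψ : Isometry ψ) (h3 : dH X < Real.pi / 3) :
    dH X ≤ hausdorffDist (range φ) (range ψ) := by
  by_contra hlt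
  push Not at hlt
  have : Nonempty X := hX.to_subtype
  obtain ⟨r', hr1, hr2⟩ := exists_between hlt
  obtain ⟨r, hr3, hr4⟩ := exists_between hr2
  have hr'0 : 0 < r' := lt_of_le_of_lt hausdorffDist_nonneg hr1
  -- the boundedness
  have hbX : Bornology.IsBounded (range φ) := by
    rw [Metric.isBounded_iff]
    refine ⟨Real.pi, ?_⟩
    rintro _ ⟨x, rfl⟩ _ ⟨y, rfl⟩
    rw [hφ.dist_eq, Subtype.dist_eq, dist_eq_norm]; exact norm_le_pi _
  have hbS : Bornology.IsBounded (range ψ) := by
    rw [Metric.isBounded_iff]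
    refine ⟨Real.pi, ?_⟩
    rintro _ ⟨x, rfl⟩ _ ⟨y, rfl⟩
    rw [hψ.dist_eq, dist_eq_norm]; exact norm_le_pi _
  have hfin : hausdorffEDist (range φ) (range ψ) ≠ ⊤ :=
    hausdorffEDist_ne_top_of_nonempty_of_bounded (range_nonempty _) (range_nonempty _) hbX hbS
  have hex : ∀ p : Circ, ∃ x : X, dist (φ x) (ψ p) < r' := by
    intro p
    obtain ⟨y, ⟨x, rfl⟩, hy⟩ := exists_dist_lt_of_hausdorffDist_lt' (mem_range_self (f := ψ) p) hr1 hfin
    exact ⟨x, hy⟩
  choose f hf using hex
  -- distortion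
  have hd1 : ∀ p q, dist (f p) (f q) < dist p q + 2 * r' := by
    intro p q
    have h1 := dist_triangle4 (φ (f p)) (ψ p) (ψ q) (φ (f q))
    rw [hφ.dist_eq, hψ.dist_eq, dist_comm (ψ q)] at h1
    linarith [hf p, hf q]
  have hd2 : ∀ p q, dist p q < dist (f p) (f q) + 2 * r' := by
    intro p q
    have h1 := dist_triangle4 (ψ p) (φ (f p)) (φ (f q)) (ψ q)
    rw [hφ.dist_eq, hψ.dist_eq, dist_comm (ψ p)] at h1
    linarith [hf p, hf q]
  -- the gap
  obtain ⟨p0, hp0⟩ := exists_lt_of_lt_ciSup (show r < ⨆ p : Circ, infDist p X from hr4)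
  have hgap : ∀ x ∈ X, r < dist x p0 := by
    intro x hx
    rw [dist_comm]
    exact hp0.trans_le (infDist_le_dist_of_mem hx)
  -- the lift
  obtain ⟨u, hu⟩ : ∃ u : Circ → ℝ, ∀ x, ((u x : ℝ) : Circ) = x - p0 ∧ 0 ≤ u x ∧ u x < 2 * Real.pi := by
    refine ⟨fun x => ((AddCircle.equivIco (2 * Real.pi) 0 (x - p0) : Ico (0:ℝ) (0 + 2 * Real.pi)) : ℝ),
      fun x => ⟨?_, ?_, ?_⟩⟩
    · exact AddCircle.coe_equivIco
    · exact (AddCircle.equivIco (2 * Real.pi) 0 (x - p0)).2.1
    · have := (AddCircle.equivIco (2 * Real.pi) 0 (x - p0)).2.2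
      simpa using this
  have hur : ∀ x ∈ X, r < u x ∧ u x < 2 * Real.pi - r := by
    intro x hx
    have h1 := hgap x hx
    rw [dist_eq_norm, ← (hu x).1] at h1
    constructor
    · have := norm_le_abs (u x)
      rw [abs_of_nonneg (hu x).2.1] at this
      linarith
    · rw [← coe_sub_2pi] at h1
      have := norm_le_abs (u x - 2 * Real.pi)
      rw [abs_of_neg (by linarith [(hu x).2.2])] at this
      linarith
  have hdu : ∀ x y : Circ, dist x y = ‖((u x - u y : ℝ) : Circ)‖ := by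
    intro x y
    rw [AddCircle.coe_sub, (hu x).1, (hu y).1, dist_eq_norm]
    congr 1
    abel
  have hle : ∀ x y : Circ, dist x y ≤ |u x - u y| := by
    intro x y
    rw [hdu]; exact norm_le_abs _
  have heq : ∀ x ∈ X, ∀ y ∈ X, dist x y < 2 * r → |u x - u y| = dist x y := by
    intro x hx y hy hxy
    have hx' := hur x hx
    have hy' := hur y hy
    have ha : |u x - u y| ≤ 2 * Real.pi := by
      rw [abs_le]; constructor <;> linarith
    rw [hdu, norm_eq_min ha] at hxy ⊢
    rcases min_choice |u x - u y| (2 * Real.pi - |u x - u y|) with h | h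
    · exact h.symm
    · exfalso
      rw [h] at hxy
      have : |u x - u y| < 2 * Real.pi - 2 * r := by
        rw [abs_lt]; constructor <;> linarith
      linarith
  -- the real valued function
  set G : Circ → ℝ := fun p => u (f p) with hG
  set η : ℝ := min (2 * (r - r')) ((Real.pi - 3 * r') / 2) with hη
  have hη0 : 0 < η := by
    apply lt_min <;> linarith
  have hη1 : η ≤ 2 * (r - r') := min_le_left _ _
  have hη2 : η ≤ (Real.pi - 3 * r') / 2 := min_le_right _ _
  have hjump : ∀ p q, dist p q < η → |G p - G q| < 2 * r' + η := by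
    intro p q hpq
    have h1 := hd1 p q
    have h2 : |G p - G q| = dist (f p) (f q) := by
      apply heq _ (f p).2 _ (f q).2
      change dist (f p) (f q) < 2 * r
      linarith
    rw [h2]; linarith
  have hfar : ∀ p q, Real.pi - η < dist p q → Real.pi - η - 2 * r' < |G p - G q| := by
    intro p q hpq
    have h1 := hd2 p q
    have h2 : dist (f p) (f q) ≤ |G p - G q| := hle _ _
    linarith
  -- antipodal map
  have hanti : ∀ p : Circ, dist p (p + ((Real.pi : ℝ) : Circ)) = Real.pi := by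
    intro p
    rw [dist_eq_norm, sub_add_cancel_left, norm_neg, norm_eq_abs] <;>
      rw [abs_of_pos Real.pi_pos]
  have htrans : ∀ p q : Circ, dist (p + ((Real.pi : ℝ) : Circ)) (q + ((Real.pi : ℝ) : Circ)) = dist p q :=
    fun p q => by simp
  have hstep : ∀ p q, dist p q < η →
      G (p + ((Real.pi : ℝ) : Circ)) < G p → G (q + ((Real.pi : ℝ) : Circ)) < G q := by
    intro p q hpq hlt
    set P := p + ((Real.pi : ℝ) : Circ) with hP
    set Q := q + ((Real.pi : ℝ) : Circ) with hQ
    have hPQ : dist P Q < η := by rw [hP, hQ, htrans]; exact hpq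
    have j1 := abs_lt.mp (hjump p q hpq)
    have j2 := abs_lt.mp (hjump P Q hPQ)
    have f1 : Real.pi - η - 2 * r' < |G p - G P| := hfar p P (by rw [hP, hanti]; linarith)
    have f2 : Real.pi - η - 2 * r' < |G q - G P| := by
      apply hfar
      have h1 := dist_triangle p q P
      rw [hP, hanti] at h1
      rw [hP]
      linarith
    have f3 : Real.pi - η - 2 * r' < |G q - G Q| := hfar q Q (by rw [hQ, hanti]; linarith)
    rw [abs_of_pos (by linarith)] at f1
    have h4 : 0 < G q - G P := by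
      by_contra hcon
      push Not at hcon
      rw [abs_of_nonpos hcon] at f2
      linarith
    rw [abs_of_pos h4] at f2
    by_contra hcon
    push Not at hcon
    rw [abs_of_nonpos (by linarith)] at f3
    linarith
  -- connectedness
  have hloc : IsLocallyConstant (fun p : Circ => (G (p + ((Real.pi : ℝ) : Circ)) < G p)) := by
    rw [IsLocallyConstant.iff_eventually_eq]
    intro p
    filter_upwards [Metric.ball_mem_nhds p hη0] with q hq
    rw [Metric.mem_ball] at hq
    apply propext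
    constructor
    · exact hstep q p hq
    · exact hstep p q (by rw [dist_comm]; exact hq)
  have hconst := hloc.apply_eq_of_preconnectedSpace (0 : Circ) (0 + ((Real.pi : ℝ) : Circ))
  simp only [zero_add] at hconst
  have hpp : ((Real.pi : ℝ) : Circ) + ((Real.pi : ℝ) : Circ) = 0 := by
    rw [← AddCircle.coe_add, ← two_mul, AddCircle.coe_period]
  rw [hpp] at hconst
  have hne : G ((Real.pi : ℝ) : Circ) ≠ G 0 := by
    intro he
    have h1 := hfar 0 ((Real.pi : ℝ) : Circ) (by
      have := hanti 0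
      rw [zero_add] at this
      rw [this]; linarith)
    rw [he, sub_self, abs_zero] at h1
    linarith
  rcases lt_or_gt_of_ne hne with h | h
  · exact absurd (hconst.mp h) (not_lt.mpr h.le)
  · exact absurd (hconst.mpr h) (not_lt.mpr h.le)

theorem part_a {X : Set Circ} (hX : X.Nonempty) (h3 : dH X < Real.pi / 3) : dGH X = dH X := by
  apply le_antisymm (dGH_le_dH hX)
  apply le_csInf
  · exact ⟨_, Circ, inferInstance, Subtype.val, id, isometry_subtype_coe, isometry_id, rfl⟩
  · rintro _ ⟨Z, _, φ, ψ, hφ, hψ, rfl⟩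
    exact key hX hφ hψ h3

/-! ### Sharpness of the constant `π/3` -/

/-- The step function on `[0, 2π)` (with `P = π`). -/
noncomputable def step (P δ t : ℝ) : ℝ :=
  if t < P / 3 then P / 3 - δ
  else if t < 2 * P / 3 then 0
  else if t < 4 * P / 3 then 2 * P / 3 - δ
  else if t < 5 * P / 3 then 4 * P / 3 - 2 * δ
  else P - δ

theorem step_dist {P δ : ℝ} (hδ : 0 < δ) (hδ2 : δ < P / 3) {s t : ℝ}
    (hs : 0 ≤ s) (hs2 : s < 2 * P) (ht : 0 ≤ t) (ht2 : t < 2 * P) :
    |min |step P δ s - step P δ t| (2 * P - |step P δ s - step P δ t|)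
      - min |s - t| (2 * P - |s - t|)| ≤ 2 * (P / 3) := by
  wlog hst : s ≤ t generalizing s t with H
  · have := H ht ht2 hs hs2 (le_of_not_ge hst)
    rw [abs_sub_comm (step P δ t), abs_sub_comm t] at this
    exact this
  have e1 : |s - t| = t - s := by rw [abs_sub_comm]; exact abs_of_nonneg (by linarith)
  rw [e1]
  have key : ∀ a : ℝ, |a| = t - s → True := fun _ _ => trivial
  rw [abs_le]
  obtain ⟨c, hc⟩ : ∃ c, c = |step P δ s - step P δ t| := ⟨_, rfl⟩
  rw [← hc]
  have hc2 := abs_cases (step P δ s - step P δ t)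
  rw [← hc] at hc2
  clear hc key
  unfold step at hc2
  rcases min_cases (t - s) (2 * P - (t - s)) with ⟨h1, h1'⟩ | ⟨h1, h1'⟩ <;>
  rcases min_cases c (2 * P - c) with ⟨h2, h2'⟩ | ⟨h2, h2'⟩ <;>
  rw [h1, h2] <;>
  rcases hc2 with ⟨h3, h3'⟩ | ⟨h3, h3'⟩ <;>
  split_ifs at h3 h3' <;> constructor <;> linarith

theorem step_mem {P δ : ℝ} (hδ : 0 < δ) (hδ2 : δ < P / 3) (t : ℝ) :
    0 ≤ step P δ t ∧ step P δ t ≤ 4 * P / 3 - 2 * δ := by
  unfold step
  split_ifs <;> constructor <;> linarith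

/-- the representative of a point of the circle in `[0, 2π)`. -/
noncomputable def rep (p : Circ) : ℝ := (AddCircle.equivIco (2 * Real.pi) 0 p : ℝ)

theorem coe_rep (p : Circ) : ((rep p : ℝ) : Circ) = p := AddCircle.coe_equivIco

theorem rep_nonneg (p : Circ) : 0 ≤ rep p := (AddCircle.equivIco (2 * Real.pi) 0 p).2.1

theorem rep_lt (p : Circ) : rep p < 2 * Real.pi := by
  have h := (AddCircle.equivIco (2 * Real.pi) 0 p).2.2
  exact h.trans_eq (zero_add _)

theorem rep_coe {t : ℝ} (h0 : 0 ≤ t) (h1 : t < 2 * Real.pi) : rep (t : Circ) = t := by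
  unfold rep
  rw [AddCircle.equivIco_coe_eq (p := 2 * Real.pi) (a := 0) (x := t) ⟨h0, by simpa using h1⟩]

theorem dist_coe {s t : ℝ} (hs : 0 ≤ s) (hs2 : s < 2 * Real.pi) (ht : 0 ≤ t)
    (ht2 : t < 2 * Real.pi) :
    dist (s : Circ) (t : Circ) = min |s - t| (2 * Real.pi - |s - t|) := by
  rw [dist_eq_norm, ← AddCircle.coe_sub, norm_eq_min]
  rw [abs_le]; constructor <;> linarith

/-- the (discontinuous) map of the circle with five values used for the sharpness. -/
noncomputable def F (δ : ℝ) (p : Circ) : Circ := ((step Real.pi δ (rep p) : ℝ) : Circ)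

theorem F_dist {δ : ℝ} (hδ : 0 < δ) (hδ2 : δ < Real.pi / 3) (p q : Circ) :
    |dist (F δ p) (F δ q) - dist p q| ≤ 2 * (Real.pi / 3) := by
  have h1 := step_mem hδ hδ2 (rep p)
  have h2 := step_mem hδ hδ2 (rep q)
  have e1 : dist (F δ p) (F δ q) = min |step Real.pi δ (rep p) - step Real.pi δ (rep q)|
      (2 * Real.pi - |step Real.pi δ (rep p) - step Real.pi δ (rep q)|) :=
    dist_coe h1.1 (by linarith [Real.pi_pos]) h2.1 (by linarith [Real.pi_pos])
  have e2 : dist p q = min |rep p - rep q| (2 * Real.pi - |rep p - rep q|) := by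
    conv_lhs => rw [← coe_rep p, ← coe_rep q]
    exact dist_coe (rep_nonneg p) (rep_lt p) (rep_nonneg q) (rep_lt q)
  rw [e1, e2]
  exact step_dist hδ hδ2 (rep_nonneg p) (rep_lt p) (rep_nonneg q) (rep_lt q)

/-- the five-point set. -/
noncomputable def XX (δ : ℝ) : Set Circ := range (F δ)

theorem XX_nonempty (δ : ℝ) : (XX δ).Nonempty := range_nonempty _

theorem dGH_XX {δ : ℝ} (hδ : 0 < δ) (hδ2 : δ < Real.pi / 3) : dGH (XX δ) ≤ Real.pi / 3 := by
  let Φ : Circ → XX δ := fun p => ⟨F δ p, mem_range_self p⟩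
  have H : ∀ p q : Circ, |dist (Φ p) (Φ q) - dist (id p) (id q)| ≤ 2 * (Real.pi / 3) :=
    fun p q => F_dist hδ hδ2 p q
  let inst : MetricSpace (XX δ ⊕ Circ) :=
    glueMetricApprox Φ id (Real.pi / 3) (by positivity) H
  have hm : hausdorffDist (range (Sum.inl : XX δ → XX δ ⊕ Circ))
      (range (Sum.inr : Circ → XX δ ⊕ Circ)) ∈
      {r : ℝ | ∃ (Z : Type) (_ : MetricSpace Z) (φ : XX δ → Z) (ψ : Circ → Z),
    Isometry φ ∧ Isometry ψ ∧ r = hausdorffDist (range φ) (range ψ)} :=
    ⟨XX δ ⊕ Circ, inst, Sum.inl, Sum.inr, Isometry.of_dist_eq (fun _ _ => rfl),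
      Isometry.of_dist_eq (fun _ _ => rfl), rfl⟩
  refine (csInf_le (dGH_bddBelow _) hm).trans ?_
  have hg : ∀ p : Circ, dist (Sum.inl (Φ p) : XX δ ⊕ Circ) (Sum.inr p) = Real.pi / 3 :=
    fun p => glueDist_glued_points Φ id (Real.pi / 3) p
  apply hausdorffDist_le_of_mem_dist (by positivity)
  · rintro _ ⟨⟨_, p, rfl⟩, rfl⟩
    exact ⟨Sum.inr p, mem_range_self _, (hg p).le⟩
  · rintro _ ⟨p, rfl⟩
    refine ⟨Sum.inl (Φ p), mem_range_self _, ?_⟩
    rw [dist_comm]
    exact (hg p).le

theorem lt_dH_XX {δ : ℝ} (hδ : 0 < δ) (hδ2 : δ < Real.pi / 3) :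
    Real.pi / 3 + δ ≤ dH (XX δ) := by
  refine le_trans ?_ (infDist_le_dH (XX_nonempty δ) ((2 * Real.pi - (Real.pi / 3 + δ) : ℝ) : Circ))
  rw [le_infDist (XX_nonempty δ)]
  rintro _ ⟨p, rfl⟩
  have h1 := step_mem hδ hδ2 (rep p)
  have hpi := Real.pi_pos
  unfold F
  rw [dist_coe (by linarith) (by linarith) h1.1 (by linarith)]
  rw [abs_of_nonneg (by linarith)]
  apply le_min <;> linarith

theorem dH_XX_le {δ : ℝ} (hδ : 0 < δ) (hδ2 : δ < Real.pi / 3) :
    dH (XX δ) ≤ Real.pi / 3 + δ := by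
  have hpi := Real.pi_pos
  have hmem : ∀ t v : ℝ, 0 ≤ t → t < 2 * Real.pi → step Real.pi δ t = v → (v : Circ) ∈ XX δ := by
    intro t v h0 h1 h2
    refine ⟨(t : Circ), ?_⟩
    unfold F
    rw [rep_coe h0 h1, h2]
  have m0 : ((0 : ℝ) : Circ) ∈ XX δ := hmem (Real.pi / 3) 0 (by linarith) (by linarith) (by
    unfold step; rw [if_neg (by linarith), if_pos (by linarith)])
  have m1 : ((Real.pi / 3 - δ : ℝ) : Circ) ∈ XX δ := hmem 0 _ (by linarith) (by linarith) (by
    unfold step; rw [if_pos (by linarith)])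
  have m2 : ((2 * Real.pi / 3 - δ : ℝ) : Circ) ∈ XX δ :=
    hmem (2 * Real.pi / 3) _ (by linarith) (by linarith) (by
      unfold step; rw [if_neg (by linarith), if_neg (by linarith), if_pos (by linarith)])
  have m3 : ((Real.pi - δ : ℝ) : Circ) ∈ XX δ :=
    hmem (5 * Real.pi / 3) _ (by linarith) (by linarith) (by
      unfold step; rw [if_neg (by linarith), if_neg (by linarith), if_neg (by linarith),
        if_neg (by linarith)])
  have m4 : ((4 * Real.pi / 3 - 2 * δ : ℝ) : Circ) ∈ XX δ :=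
    hmem (4 * Real.pi / 3) _ (by linarith) (by linarith) (by
      unfold step; rw [if_neg (by linarith), if_neg (by linarith), if_neg (by linarith),
        if_pos (by linarith)])
  apply ciSup_le
  intro p
  have hd : ∀ v : ℝ, (v : Circ) ∈ XX δ → infDist p (XX δ) ≤ |rep p - v| := by
    intro v hv
    refine (infDist_le_dist_of_mem hv).trans ?_
    rw [dist_eq_norm]
    conv_lhs => rw [← coe_rep p, ← AddCircle.coe_sub]
    exact norm_le_abs _
  have m5 : ((2 * Real.pi : ℝ) : Circ) ∈ XX δ := by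
    rw [AddCircle.coe_period]; simpa using m0
  have r0 := rep_nonneg p
  have r1 := rep_lt p
  by_cases h0 : rep p < Real.pi / 3
  · refine (hd 0 m0).trans ?_
    rw [abs_le]; constructor <;> linarith
  by_cases h1 : rep p < 2 * Real.pi / 3
  · refine (hd _ m1).trans ?_
    rw [abs_le]; constructor <;> linarith
  by_cases h2 : rep p < Real.pi
  · refine (hd _ m2).trans ?_
    rw [abs_le]; constructor <;> linarith
  by_cases h3 : rep p < 4 * Real.pi / 3
  · refine (hd _ m3).trans ?_
    rw [abs_le]; constructor <;> linarith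
  by_cases h4 : rep p < 5 * Real.pi / 3 - δ
  · refine (hd _ m4).trans ?_
    rw [abs_le]; constructor <;> linarith
  · refine (hd _ m5).trans ?_
    rw [abs_le]; constructor <;> linarith

theorem part_b {ε : ℝ} (hε : 0 < ε) :
    ∃ X : Set Circ, X.Nonempty ∧ dH X < Real.pi / 3 + ε ∧ dGH X < dH X := by
  have hpi := Real.pi_pos
  set δ : ℝ := min (ε / 2) (Real.pi / 6) with hδ
  have h0 : 0 < δ := lt_min (by linarith) (by linarith)
  have h1 : δ ≤ ε / 2 := min_le_left _ _
  have h2 : δ ≤ Real.pi / 6 := min_le_right _ _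
  have h3 : δ < Real.pi / 3 := by linarith
  refine ⟨XX δ, XX_nonempty δ, ?_, ?_⟩
  · linarith [dH_XX_le h0 h3]
  · linarith [dGH_XX h0 h3, lt_dH_XX h0 h3]

/-- **The sharp threshold is `π/3`; in particular Q1 is false.**
* `d_GH(X, S¹) = d_H(X, S¹)` for every nonempty `X` with `d_H(X, S¹) < π/3`;
* for every `ε > 0` there is a nonempty `X` with `d_H(X, S¹) < π/3 + ε` and
  `d_GH(X, S¹) < d_H(X, S¹)`;
* the statement Q1 (with `π/6` in place of `π/3` in the previous line) is false. -/
theorem result :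
    (∀ X : Set Circ, X.Nonempty → dH X < Real.pi / 3 → dGH X = dH X) ∧
    (∀ ε : ℝ, 0 < ε → ∃ X : Set Circ, X.Nonempty ∧ dH X < Real.pi / 3 + ε ∧ dGH X < dH X) ∧
    ¬ Q1 := by
  refine ⟨fun X hX h => part_a hX h, fun ε hε => part_b hε, ?_⟩
  intro hQ
  obtain ⟨X, hX, h1, h2⟩ := hQ (Real.pi / 6) (by positivity)
  have h3 : dH X < Real.pi / 3 := by linarith
  rw [part_a hX h3] at h2
  exact lt_irrefl _ h2

end Pool.Agent.Kept.MP_124474_gt.SharpThreshold
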